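import Pool.Agent.Helper93.KS.St

/-!
# Project KS, module ESY: a lower bound for elementary symmetric functions
-/

set_option autoImplicit false

namespace Pool.Agent.Helper1.KS

open Finset Filter Topology Pool.Agent.Helper93.KS

/-- the elementary symmetric functions of `a p`, `p ∈ S` -/
private noncomputable def E (a : ℕ → ℝ) (k : ℕ) (S : Finset ℕ) : ℝ :=
  ∑ T ∈ S.powersetCard k, ∏ p ∈ T, a p

private theorem E_zero (a : ℕ → ℝ) (S : Finset ℕ) : E a 0 S = 1 := by
  unfold E
  rw [Finset.powersetCard_zero, Finset.sum_singleton, Finset.prod_empty]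

private theorem E_empty (a : ℕ → ℝ) (k : ℕ) : E a (k + 1) ∅ = 0 := by
  unfold E
  rw [Finset.powersetCard_eq_empty.2 (by simp), Finset.sum_empty]

private theorem E_insert (a : ℕ → ℝ) (k : ℕ) (p : ℕ) (S : Finset ℕ) (hp : p ∉ S) :
    E a (k + 1) (insert p S) = E a (k + 1) S + a p * E a k S := by
  unfold E
  rw [Finset.powersetCard_succ_insert hp, Finset.sum_union, Finset.sum_image, Finset.mul_sum]
  · congr 1
    refine Finset.sum_congr rfl fun T hT => ?_
    have hT' := (Finset.mem_powersetCard.1 hT).1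
    rw [Finset.prod_insert (fun h => hp (hT' h))]
  · intro U hU U' hU' he
    have h1 : U ⊆ S := (Finset.mem_powersetCard.1 hU).1
    have h2 : U' ⊆ S := (Finset.mem_powersetCard.1 hU').1
    have he' : insert p U = insert p U' := he
    have e1 : (insert p U).erase p = U := Finset.erase_insert (fun h => hp (h1 h))
    have e2 : (insert p U').erase p = U' := Finset.erase_insert (fun h => hp (h2 h))
    rw [← e1, he', e2]
  · rw [Finset.disjoint_left]
    intro T hT hT'
    obtain ⟨U, -, rfl⟩ := Finset.mem_image.1 hT'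
    exact hp ((Finset.mem_powersetCard.1 hT).1 (Finset.mem_insert_self p U))

private theorem E_one (a : ℕ → ℝ) (S : Finset ℕ) : E a 1 S = ∑ p ∈ S, a p := by
  classical
  induction S using Finset.induction_on with
  | empty => rw [E_empty a 0, Finset.sum_empty]
  | insert p S hp ih =>
    rw [E_insert a 0 p S hp, ih, E_zero, Finset.sum_insert hp]
    ring

/-- the majorant -/
private noncomputable def W (a : ℕ → ℝ) (S : Finset ℕ) : ℝ := ∏ p ∈ S, (1 + |a p|)

private theorem W_one_le (a : ℕ → ℝ) (S : Finset ℕ) : 1 ≤ W a S := by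
  unfold W
  classical
  induction S using Finset.induction_on with
  | empty => simp
  | insert p S hp ih =>
    rw [Finset.prod_insert hp]
    have := abs_nonneg (a p)
    nlinarith

private theorem E_le (a : ℕ → ℝ) (S : Finset ℕ) : ∀ k, |E a k S| ≤ W a S := by
  classical
  induction S using Finset.induction_on with
  | empty =>
    intro k
    cases k with
    | zero => rw [E_zero, abs_one]; exact W_one_le a _
    | succ k => rw [E_empty, abs_zero]; exact zero_le_one.trans (W_one_le a _)
  | insert p S hp ih =>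
    intro k
    cases k with
    | zero => rw [E_zero, abs_one]; exact W_one_le a _
    | succ k =>
      rw [E_insert a k p S hp]
      have h1 : W a (insert p S) = (1 + |a p|) * W a S := by
        unfold W
        rw [Finset.prod_insert hp]
      rw [h1]
      calc |E a (k + 1) S + a p * E a k S| ≤ |E a (k + 1) S| + |a p * E a k S| := abs_add_le _ _
        _ = |E a (k + 1) S| + |a p| * |E a k S| := by rw [abs_mul]
        _ ≤ W a S + |a p| * W a S := by
            have h3 := ih k
            have h4 := ih (k + 1)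
            gcongr
        _ = (1 + |a p|) * W a S := by ring

/-- `(k + 1) e_{k+1} - e_1 e_k` is small -/
private theorem D_le (a : ℕ → ℝ) (S : Finset ℕ) :
    ∀ k : ℕ, |((k : ℝ) + 1) * E a (k + 1) S - E a 1 S * E a k S| ≤ (∑ p ∈ S, a p ^ 2) * W a S := by
  classical
  induction S using Finset.induction_on with
  | empty =>
    intro k
    rw [E_empty, E_empty a 0]
    simp
  | insert p S hp ih =>
    intro k
    have hW : W a (insert p S) = (1 + |a p|) * W a S := by
      unfold W
      rw [Finset.prod_insert hp]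
    have hQ0 : 0 ≤ ∑ q ∈ S, a q ^ 2 := Finset.sum_nonneg fun q _ => sq_nonneg _
    have hW0 : 0 ≤ W a S := zero_le_one.trans (W_one_le a S)
    have ha0 : 0 ≤ |a p| := abs_nonneg _
    have ha2 : |a p| ^ 2 = a p ^ 2 := sq_abs _
    rw [Finset.sum_insert hp, hW]
    have hR : 0 ≤ (a p ^ 2 + ∑ q ∈ S, a q ^ 2) * ((1 + |a p|) * W a S) := by positivity
    cases k with
    | zero =>
      rw [E_zero]
      simpa using hR
    | succ j =>
      have e1 := E_insert a (j + 1) p S hp
      have e2 := E_insert a j p S hp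
      have e3 := E_insert a 0 p S hp
      rw [E_zero] at e3
      simp only [zero_add] at e3
      have hid : (((j + 1 : ℕ) : ℝ) + 1) * E a (j + 1 + 1) (insert p S) -
          E a 1 (insert p S) * E a (j + 1) (insert p S) =
          ((((j + 1 : ℕ) : ℝ) + 1) * E a (j + 1 + 1) S - E a 1 S * E a (j + 1) S) +
          a p * (((j : ℝ) + 1) * E a (j + 1) S - E a 1 S * E a j S) - a p ^ 2 * E a j S := by
        rw [e1, e2, e3]
        push_cast
        ring
      rw [hid]
      have i1 := ih (j + 1)
      have i2 := ih j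
      have i3 := E_le a S j
      set X := (((j + 1 : ℕ) : ℝ) + 1) * E a (j + 1 + 1) S - E a 1 S * E a (j + 1) S
      set Y := ((j : ℝ) + 1) * E a (j + 1) S - E a 1 S * E a j S
      calc |X + a p * Y - a p ^ 2 * E a j S| ≤ |X + a p * Y| + |a p ^ 2 * E a j S| := abs_sub _ _
        _ ≤ |X| + |a p * Y| + |a p ^ 2 * E a j S| := by
            have := abs_add_le X (a p * Y)
            linarith
        _ = |X| + |a p| * |Y| + a p ^ 2 * |E a j S| := by
            rw [abs_mul, abs_mul, abs_of_nonneg (sq_nonneg (a p))]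
        _ ≤ (∑ q ∈ S, a q ^ 2) * W a S + |a p| * ((∑ q ∈ S, a q ^ 2) * W a S) +
            a p ^ 2 * W a S := by
            gcongr
        _ ≤ (a p ^ 2 + ∑ q ∈ S, a q ^ 2) * ((1 + |a p|) * W a S) := by
            have h1 : 0 ≤ a p ^ 2 * |a p| * W a S := by positivity
            nlinarith [h1]

private theorem W_le (a : ℕ → ℝ) (S : Finset ℕ) (h : ∑ p ∈ S, |a p| ≤ 1) : W a S ≤ 3 := by
  unfold W
  calc ∏ p ∈ S, (1 + |a p|) ≤ ∏ p ∈ S, Real.exp |a p| := by
        refine Finset.prod_le_prod (fun p _ => by positivity) fun p _ => ?_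
        have := Real.add_one_le_exp |a p|
        linarith
    _ = Real.exp (∑ p ∈ S, |a p|) := (Real.exp_sum _ _).symm
    _ ≤ Real.exp 1 := Real.exp_le_exp.2 h
    _ ≤ 3 := by
        have := Real.exp_one_lt_d9
        linarith

private theorem main (η : ℝ) (hη : 0 < η) : ∀ m : ℕ, ∃ c P₀ : ℝ, 0 < c ∧ 7 ≤ P₀ ∧
    ∀ (P : ℝ) (S : Finset ℕ) (s : ℕ → ℝ), P₀ ≤ P → (∀ p ∈ S, P ≤ (p : ℝ) ∧ s p ^ 2 = 1) →
    ∑ p ∈ S, (1 : ℝ) / p ≤ 1 → η ≤ |∑ p ∈ S, s p / p| → c ≤ |E (fun p => s p / p) m S| := by
  intro m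
  induction m with
  | zero =>
    refine ⟨1, 7, one_pos, le_rfl, fun P S s _ _ _ _ => ?_⟩
    rw [E_zero, abs_one]
  | succ m ih =>
    obtain ⟨c, P₀, hc, hP₀, H⟩ := ih
    have hηc : 0 < η * c := mul_pos hη hc
    refine ⟨η * c / (2 * ((m : ℝ) + 1)), max P₀ (6 / (η * c)), by positivity,
      hP₀.trans (le_max_left _ _), ?_⟩
    intro P S s hP hS h1 h2
    have hPP₀ : P₀ ≤ P := (le_max_left _ _).trans hP
    have hP6 : 6 / (η * c) ≤ P := (le_max_right _ _).trans hP
    have hP0 : 0 < P := by linarith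
    have hm := H P S s hPP₀ hS h1 h2
    set a : ℕ → ℝ := fun p => s p / p with ha
    have habs : ∀ p ∈ S, |a p| = 1 / p := by
      intro p hp
      have hs : |s p| = 1 := by
        have := (hS p hp).2
        have h3 : |s p| ^ 2 = 1 := by rw [sq_abs]; exact this
        have h4 := abs_nonneg (s p)
        nlinarith
      show |s p / p| = 1 / p
      rw [abs_div, hs, abs_of_nonneg (Nat.cast_nonneg p : (0 : ℝ) ≤ p)]
    have hsum : ∑ p ∈ S, |a p| ≤ 1 := by
      rw [Finset.sum_congr rfl habs]
      exact h1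
    have hQ : ∑ p ∈ S, a p ^ 2 ≤ 1 / P := by
      have h3 : ∀ p ∈ S, a p ^ 2 ≤ 1 / P * (1 / p) := by
        intro p hp
        have hp' : P ≤ (p : ℝ) := (hS p hp).1
        have hp0 : 0 < (p : ℝ) := lt_of_lt_of_le hP0 hp'
        rw [← sq_abs, habs p hp, sq]
        exact mul_le_mul_of_nonneg_right (one_div_le_one_div_of_le hP0 hp') (by positivity)
      calc ∑ p ∈ S, a p ^ 2 ≤ ∑ p ∈ S, 1 / P * (1 / p) := Finset.sum_le_sum h3
        _ = 1 / P * ∑ p ∈ S, (1 : ℝ) / p := by rw [Finset.mul_sum]
        _ ≤ 1 / P * 1 := mul_le_mul_of_nonneg_left h1 (by positivity)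
        _ = 1 / P := mul_one _
    have hD := D_le a S m
    have hW := W_le a S hsum
    have hW0 : 0 ≤ W a S := zero_le_one.trans (W_one_le a S)
    have hD' : |((m : ℝ) + 1) * E a (m + 1) S - E a 1 S * E a m S| ≤ η * c / 2 := by
      refine hD.trans ?_
      have h3 : (∑ p ∈ S, a p ^ 2) * W a S ≤ 1 / P * 3 := by
        have hQ0 : 0 ≤ ∑ q ∈ S, a q ^ 2 := Finset.sum_nonneg fun q _ => sq_nonneg _
        exact mul_le_mul hQ hW hW0 (by positivity)
      refine h3.trans ?_
      rw [div_le_iff₀ hηc] at hP6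
      rw [div_mul_eq_mul_div, one_mul, div_le_iff₀ hP0]
      linarith
    have hE1 : η ≤ |E a 1 S| := by
      rw [E_one]
      exact h2
    have h5 : η * c ≤ |E a 1 S * E a m S| := by
      rw [abs_mul]
      exact mul_le_mul hE1 hm hc.le (abs_nonneg _)
    have h6 : |E a 1 S * E a m S| ≤ |((m : ℝ) + 1) * E a (m + 1) S| + η * c / 2 := by
      have := abs_sub_abs_le_abs_sub (E a 1 S * E a m S) (((m : ℝ) + 1) * E a (m + 1) S)
      rw [abs_sub_comm] at hD'
      linarith
    have hm1 : (0 : ℝ) < (m : ℝ) + 1 := by positivity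
    rw [abs_mul ((m : ℝ) + 1), abs_of_pos hm1] at h6
    rw [div_le_iff₀ (by positivity)]
    nlinarith [h5, h6]

theorem hESY : StESY := by
  intro m η _ hη
  exact main η hη m

end Pool.Agent.Helper1.KS
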